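import Pool.Agent.MP_6a4325_al.H84.Spec3

/-! Independence of the matrix coefficients of twisted representations. -/

namespace Pool.Agent.MP_6a4325_al.H50

open Pool.Agent.MP_6a4325_al.H62 Pool.Agent.MP_6a4325_al.H84

namespace Keyt

variable {K N ι : Type} [Field K] [Group N] [Fintype ι] {n : ℕ}
  (b : N →* Matrix (Fin n) (Fin n) K) (χ : ι → N →* K)

/-- relations with support in `S` -/
def R (S : Finset ι) : Submodule K (ι → Matrix (Fin n) (Fin n) K) where
  carrier := {C | (∀ h, ∑ i, χ i h * (C i * b h).trace = 0) ∧ ∀ i ∉ S, C i = 0}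
  zero_mem' := ⟨fun h => by simp, fun _ _ => rfl⟩
  add_mem' := by
    rintro C D ⟨h1, h2⟩ ⟨h3, h4⟩
    refine ⟨fun h => ?_, fun i hi => by rw [Pi.add_apply, h2 i hi, h4 i hi, add_zero]⟩
    simp only [Pi.add_apply, add_mul, Matrix.trace_add, mul_add, Finset.sum_add_distrib, h1, h3,
      add_zero]
  smul_mem' := by
    rintro c C ⟨h1, h2⟩
    refine ⟨fun h => ?_, fun i hi => by rw [Pi.smul_apply, h2 i hi, smul_zero]⟩
    simp only [Pi.smul_apply, smul_mul_assoc, Matrix.trace_smul, smul_eq_mul, mul_left_comm _ c,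
      ← Finset.mul_sum, h1, mul_zero]

variable {b χ} {S : Finset ι}

omit [Fintype ι] in
theorem chi_ne (i : ι) (y : N) : χ i y ≠ 0 := ((Group.isUnit y).map (χ i)).ne_zero

theorem left {C : ι → Matrix (Fin n) (Fin n) K} (h : C ∈ R b χ S) (y : N) :
    (fun i => χ i y • (b y * C i)) ∈ R b χ S := by
  refine ⟨fun g => ?_, fun i hi => by simp [h.2 i hi]⟩
  rw [← h.1 (g * y)]
  refine Finset.sum_congr rfl fun i _ => ?_
  simp only [map_mul, smul_mul_assoc, Matrix.trace_smul, smul_eq_mul, mul_assoc]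
  rw [Matrix.trace_mul_comm (b y), mul_assoc]

theorem right {C : ι → Matrix (Fin n) (Fin n) K} (h : C ∈ R b χ S) (y : N) :
    (fun i => χ i y • (C i * b y)) ∈ R b χ S := by
  refine ⟨fun g => ?_, fun i hi => by simp [h.2 i hi]⟩
  rw [← h.1 (y * g)]
  refine Finset.sum_congr rfl fun i _ => ?_
  simp only [map_mul, smul_mul_assoc, Matrix.trace_smul, smul_eq_mul, mul_assoc]
  ring

theorem surj (hb : AI b) {C : ι → Matrix (Fin n) (Fin n) K} (h : C ∈ R b χ S) {i : ι}
    (hi : C i ≠ 0) (X : Matrix (Fin n) (Fin n) K) : ∃ D ∈ R b χ S, D i = X := by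
  let I := (R b χ S).map (LinearMap.proj i)
  have hl : ∀ Y Z, Z ∈ I → Y * Z ∈ I := by
    intro Y Z hZ
    have hY : Y ∈ Submodule.span K (Set.range b) := hb ▸ Submodule.mem_top
    induction hY using Submodule.span_induction with
    | mem _ hy =>
      obtain ⟨y, rfl⟩ := hy
      obtain ⟨D, hD, rfl⟩ := hZ
      refine ⟨(χ i y)⁻¹ • fun j => χ j y • (b y * D j), Submodule.smul_mem _ _ (left hD y), ?_⟩
      simp [smul_smul, chi_ne i y]
    | zero => rw [zero_mul]; exact I.zero_mem
    | add _ _ _ _ h1 h2 => rw [add_mul]; exact I.add_mem h1 h2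
    | smul c _ _ h1 => rw [smul_mul_assoc]; exact I.smul_mem c h1
  have hr : ∀ Y Z, Z ∈ I → Z * Y ∈ I := by
    intro Y Z hZ
    have hY : Y ∈ Submodule.span K (Set.range b) := hb ▸ Submodule.mem_top
    induction hY using Submodule.span_induction with
    | mem _ hy =>
      obtain ⟨y, rfl⟩ := hy
      obtain ⟨D, hD, rfl⟩ := hZ
      refine ⟨(χ i y)⁻¹ • fun j => χ j y • (D j * b y), Submodule.smul_mem _ _ (right hD y), ?_⟩
      simp [smul_smul, chi_ne i y]
    | zero => rw [mul_zero]; exact I.zero_mem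
    | add _ _ _ _ h1 h2 => rw [mul_add]; exact I.add_mem h1 h2
    | smul c _ _ h1 => rw [mul_smul_comm]; exact I.smul_mem c h1
  have : Nonempty (Fin n) := by
    by_contra h0
    rw [not_nonempty_iff] at h0
    exact hi (Subsingleton.elim _ _)
  have h1 := IsSimpleRing.one_mem_of_ne_zero_mem
    (TwoSidedIdeal.mk' (I : Set (Matrix (Fin n) (Fin n) K)) I.zero_mem I.add_mem I.neg_mem
      (fun {x y} hy => hl x y hy) fun {x y} hx => hr y x hx) hi
    (by rw [TwoSidedIdeal.mem_mk']; exact ⟨C, h, rfl⟩)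
  rw [TwoSidedIdeal.mem_mk'] at h1
  have := hl X 1 h1
  rwa [mul_one] at this

/-- left translation on the relations -/
def T (b : N →* Matrix (Fin n) (Fin n) K) (χ : ι → N →* K) (S : Finset ι) (y : N) :
    R b χ S →ₗ[K] R b χ S where
  toFun C := ⟨fun i => χ i y • (b y * C.1 i), left C.2 y⟩
  map_add' C D := Subtype.ext (funext fun i => by simp [mul_add])
  map_smul' c C := Subtype.ext (funext fun i => by simp [smul_comm c])

theorem det_T (hb : AI b) {C : ι → Matrix (Fin n) (Fin n) K} (h : C ∈ R b χ S) {i : ι}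
    (hi : C i ≠ 0) (hinj : ∀ D ∈ R b χ S, D i = 0 → D = 0) (y : N) :
    LinearMap.det (T b χ S y) =
      χ i y ^ (n * n) * LinearMap.det (LinearMap.mulLeft K (b y)) := by
  let e : R b χ S ≃ₗ[K] Matrix (Fin n) (Fin n) K :=
    LinearEquiv.ofBijective ((LinearMap.proj i).comp (R b χ S).subtype)
      ⟨(injective_iff_map_eq_zero _).2 fun D hD => Subtype.ext (hinj D.1 D.2 hD), fun X => by
        obtain ⟨D, hD, e⟩ := surj hb h hi X
        exact ⟨⟨D, hD⟩, e⟩⟩
  have e1 : (e : _ →ₗ[K] _) ∘ₗ T b χ S y ∘ₗ (e.symm : _ →ₗ[K] _) =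
      χ i y • LinearMap.mulLeft K (b y) := by
    refine LinearMap.ext fun X => ?_
    obtain ⟨D, rfl⟩ := e.surjective X
    simp only [LinearMap.comp_apply, LinearEquiv.coe_coe, LinearEquiv.symm_apply_apply]
    rfl
  rw [← LinearMap.det_conj (T b χ S y) e, e1, LinearMap.det_smul, Module.finrank_matrix]
  simp

end Keyt

open Keyt in
theorem keyT : SKeyT := by
  intro K N ι _ _ _ n b χ hb hχ
  classical
  have key : ∀ S : Finset ι, ∀ C ∈ R b χ S, C = 0 := by
    intro S
    induction S using Finset.strongInduction with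
    | H S ih =>
      intro C hC
      have hinj : ∀ i, C i ≠ 0 → ∀ D ∈ R b χ S, D i = 0 → D = 0 := by
        intro i hi D hD h0
        have hS : i ∈ S := by_contra fun h => hi (hC.2 i h)
        refine ih (S.erase i) (Finset.erase_ssubset hS) D ⟨hD.1, fun j hj => ?_⟩
        by_cases e : j = i
        · rw [e, h0]
        · exact hD.2 j fun h => hj (Finset.mem_erase.2 ⟨e, h⟩)
      funext i
      by_contra hi
      by_cases hj : ∃ j, j ≠ i ∧ C j ≠ 0
      · obtain ⟨j, hji, hj⟩ := hj
        have hn : 0 < n := by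
          by_contra h0
          obtain rfl : n = 0 := by omega
          exact hi (Subsingleton.elim _ _)
        obtain ⟨y, hy⟩ := hχ j i hji (n * n) (Nat.mul_pos hn hn)
        have e := (det_T hb hC hj (hinj j hj) y).symm.trans (det_T hb hC hi (hinj i hi) y)
        have hu : LinearMap.det (LinearMap.mulLeft K (b y)) ≠ 0 := by
          refine left_ne_zero_of_mul_eq_one (b := LinearMap.det (LinearMap.mulLeft K (b y⁻¹))) ?_
          rw [← LinearMap.det_comp, ← LinearMap.mulLeft_mul, ← map_mul, mul_inv_cancel, map_one,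
            LinearMap.mulLeft_one, LinearMap.det_id]
        exact hy (mul_right_cancel₀ hu e)
      · push Not at hj
        refine hi (Matrix.ext_iff_trace_mul_right.2 fun X => ?_)
        have hX : X ∈ Submodule.span K (Set.range b) := hb ▸ Submodule.mem_top
        rw [Pi.zero_apply, zero_mul, Matrix.trace_zero]
        induction hX using Submodule.span_induction with
        | mem _ hy =>
          obtain ⟨y, rfl⟩ := hy
          have := hC.1 y
          rw [Finset.sum_eq_single i (fun j _ h => by simp [hj j h]) (by simp)] at this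
          exact (mul_eq_zero.1 this).resolve_left (chi_ne i y)
        | zero => simp
        | add _ _ _ _ h1 h2 => rw [mul_add, Matrix.trace_add, h1, h2, add_zero]
        | smul c _ _ h1 => rw [mul_smul_comm, Matrix.trace_smul, h1, smul_zero]
  exact fun C hC => key Finset.univ C ⟨hC, fun i hi => absurd (Finset.mem_univ i) hi⟩

end Pool.Agent.MP_6a4325_al.H50
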